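import Pool.Agent.H234RC.W12a

set_option autoImplicit false

/-! Reconstruction of complements. -/

namespace Pool.Agent.Y395.RS

open Finset Pool.Agent.H234RC

section

variable {V W : Type}

/-- singleton element of the truncated clique lattice -/
def sgl (G : SimpleGraph V) (x : V) : TLat G := ⟨{x}, singleton_nonempty _, by simp⟩

theorem sgl_le (G : SimpleGraph V) (x : V) (t : TLat G) : sgl G x ≤ t ↔ x ∈ t.1 := by
  rw [← Subtype.coe_le_coe]
  show ({x} : Finset V) ⊆ t.1 ↔ _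
  rw [singleton_subset_iff]

theorem sgl_min (G : SimpleGraph V) (x : V) : IsMin (sgl G x) := by
  intro t ht
  have ht' : t.1 ⊆ {x} := ht
  obtain ⟨y, hy⟩ := t.2.1
  have := mem_singleton.mp (ht' hy)
  rw [sgl_le, ← this]
  exact hy

theorem exists_sgl_of_min (G : SimpleGraph V) (s : TLat G) (hs : IsMin s) :
    ∃ x, sgl G x = s := by
  obtain ⟨x, hx⟩ := s.2.1
  have h1 : sgl G x ≤ s := (sgl_le G x s).2 hx
  exact ⟨x, le_antisymm h1 (hs h1)⟩

theorem sgl_inj (G : SimpleGraph V) : Function.Injective (sgl G) := by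
  intro x y h
  have := congrArg (fun s : TLat G => s.1) h
  exact singleton_inj.mp this

theorem adjl_iff (G : SimpleGraph V) (x y : V) :
    G.Adj x y ↔ x ≠ y ∧ ∃ t : TLat G, sgl G x ≤ t ∧ sgl G y ≤ t := by
  classical
  constructor
  · intro h
    refine ⟨h.ne, ⟨⟨{x, y}, ⟨x, by simp⟩, ?_⟩, ?_, ?_⟩⟩
    · rw [coe_insert, coe_singleton, SimpleGraph.isClique_pair]
      exact fun _ => h
    · rw [sgl_le]; simp
    · rw [sgl_le]; simp
  · rintro ⟨hne, t, h1, h2⟩
    rw [sgl_le] at h1 h2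
    exact t.2.2 h1 h2 hne

theorem lat_iso (G : SimpleGraph V) (H : SimpleGraph W) (h : Nonempty (TLat G ≃o TLat H)) :
    ∃ e : V ≃ W, ∀ x y, H.Adj (e x) (e y) ↔ G.Adj x y := by
  obtain ⟨Φ⟩ := h
  have h1 : ∀ x, ∃ y, sgl H y = Φ (sgl G x) := fun x =>
    exists_sgl_of_min H _ ((Φ.isMin_apply).2 (sgl_min G x))
  have h2 : ∀ y, ∃ x, sgl G x = Φ.symm (sgl H y) := fun y =>
    exists_sgl_of_min G _ ((Φ.symm.isMin_apply).2 (sgl_min H y))
  choose f hf using h1
  have hinj : Function.Injective f := by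
    intro a b hab
    apply sgl_inj G
    apply Φ.injective
    rw [← hf, ← hf, hab]
  have hsurj : Function.Surjective f := by
    intro y
    obtain ⟨x, hx⟩ := h2 y
    refine ⟨x, sgl_inj H ?_⟩
    rw [hf, hx, Φ.apply_symm_apply]
  refine ⟨Equiv.ofBijective f ⟨hinj, hsurj⟩, fun x y => ?_⟩
  show H.Adj (f x) (f y) ↔ _
  rw [adjl_iff, adjl_iff]
  constructor
  · rintro ⟨hne, t, ht1, ht2⟩
    refine ⟨fun e => hne (by rw [e]), Φ.symm t, ?_, ?_⟩
    · rw [← Φ.symm_apply_apply (sgl G x)]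
      rw [← hf x]
      exact Φ.symm.monotone ht1
    · rw [← Φ.symm_apply_apply (sgl G y)]
      rw [← hf y]
      exact Φ.symm.monotone ht2
  · rintro ⟨hne, t, ht1, ht2⟩
    refine ⟨fun e => hne (hinj e), Φ t, ?_, ?_⟩
    · rw [hf]; exact Φ.monotone ht1
    · rw [hf]; exact Φ.monotone ht2

theorem card_of (G : SimpleGraph V) (H : SimpleGraph W) (v : V) (w : W) (e : V ≃ W) (hv : e v = w)
    (he : ∀ x y, x ≠ v → y ≠ v → (H.Adj (e x) (e y) ↔ G.Adj x y)) :
    Nonempty (TCard G v ≃o TCard H w) := by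
  have hv' : e.symm w = v := (Equiv.symm_apply_eq _).2 hv.symm
  have hne : ∀ x, x ≠ w → e.symm x ≠ v := fun x hx h => hx (by rw [← hv, ← h, e.apply_symm_apply])
  have hcl : ∀ s : Finset V, v ∉ s → G.IsClique (s : Set V) →
      H.IsClique ((s.map e.toEmbedding : Finset W) : Set W) := by
    intro s hvs hs a ha b hb hab
    rw [mem_coe, mem_map] at ha hb
    obtain ⟨x, hx, rfl⟩ := ha
    obtain ⟨y, hy, rfl⟩ := hb
    exact (he x y (fun h => hvs (h ▸ hx)) (fun h => hvs (h ▸ hy))).2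
      (hs hx hy (fun h => hab (by rw [h])))
  have hcl' : ∀ s : Finset W, w ∉ s → H.IsClique (s : Set W) →
      G.IsClique ((s.map e.symm.toEmbedding : Finset V) : Set V) := by
    intro s hws hs a ha b hb hab
    rw [mem_coe, mem_map] at ha hb
    obtain ⟨x, hx, rfl⟩ := ha
    obtain ⟨y, hy, rfl⟩ := hb
    have := hs hx hy (fun h => hab (by rw [h]))
    have hx' : x ≠ w := fun h => hws (h ▸ hx)
    have hy' : y ≠ w := fun h => hws (h ▸ hy)
    show G.Adj (e.symm x) (e.symm y)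
    rw [← he _ _ (hne x hx') (hne y hy')]
    simpa using this
  have hm : ∀ s : Finset V, v ∉ s → w ∉ s.map e.toEmbedding := by
    intro s hvs hw
    rw [mem_map] at hw
    obtain ⟨x, hx, hxw⟩ := hw
    have : x = v := by
      apply e.injective
      rw [hv]
      exact hxw
    exact hvs (this ▸ hx)
  have hm' : ∀ s : Finset W, w ∉ s → v ∉ s.map e.symm.toEmbedding := by
    intro s hws hw
    rw [mem_map] at hw
    obtain ⟨x, hx, hxw⟩ := hw
    have : x = w := by
      apply e.symm.injective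
      rw [hv']
      exact hxw
    exact hws (this ▸ hx)
  refine ⟨⟨⟨fun s => ⟨s.1.map e.toEmbedding, s.2.1.map, hcl _ s.2.2.2 s.2.2.1, hm _ s.2.2.2⟩,
    fun s => ⟨s.1.map e.symm.toEmbedding, s.2.1.map, hcl' _ s.2.2.2 s.2.2.1, hm' _ s.2.2.2⟩,
    ?_, ?_⟩, ?_⟩⟩
  · intro s
    apply Subtype.ext
    show (s.1.map e.toEmbedding).map e.symm.toEmbedding = s.1
    ext x
    simp
  · intro s
    apply Subtype.ext
    show (s.1.map e.symm.toEmbedding).map e.toEmbedding = s.1
    ext x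
    simp
  · intro s t
    show s.1.map e.toEmbedding ⊆ t.1.map e.toEmbedding ↔ s.1 ⊆ t.1
    rw [map_subset_map]

/-- the complement of a reconstructible graph is reconstructible -/
theorem recon_compl [Fintype V] (G : SimpleGraph V) (h : Reconstructible G) :
    Reconstructible Gᶜ := by
  intro W _ H hd
  obtain ⟨f, hf⟩ := hd
  have hd' : SameDeck G Hᶜ := by
    refine ⟨f, fun v => ?_⟩
    obtain ⟨π, e1, a1⟩ := card_ext Gᶜ H v (f v) (hf v)
    refine card_of G Hᶜ v (f v) π e1 (fun x y hx hy => ?_)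
    have := a1 x y hx hy
    rw [SimpleGraph.compl_adj] at this
    rw [SimpleGraph.compl_adj, this, π.injective.ne_iff]
    constructor
    · rintro ⟨h1, h2⟩
      by_contra h3
      exact h2 ⟨h1, h3⟩
    · intro h'
      exact ⟨h'.ne, fun h'' => h''.2 h'⟩
  obtain ⟨e, he⟩ := lat_iso G Hᶜ (h W Hᶜ hd')
  apply whole_iso Gᶜ H e
  intro x y
  have := he x y
  rw [SimpleGraph.compl_adj] at this
  rw [SimpleGraph.compl_adj, ← this, e.injective.ne_iff]
  constructor
  · intro h'
    exact ⟨fun h'' => h'.ne (by rw [h'']), fun h'' => h''.2 h'⟩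
  · rintro ⟨h1, h2⟩
    by_contra h3
    exact h2 ⟨h1, h3⟩

end

end Pool.Agent.Y395.RS
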