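import Pool.Agent.Y395.RS.Final
import Pool.Agent.Y125.RS.STAR
import Pool.Agent.Y297.RS.HALF
import Pool.Agent.Y528.RS.CORE1
import Pool.Agent.Y528.RS.CLOS
import Pool.Agent.Y528.RS.PAIR
import Pool.Agent.Y86.RS.CERT
import Pool.Agent.Y405.RS.CORE2
import Pool.Agent.Y125.RS.ISO
import Pool.Agent.Y125.RS.DEG
import Pool.Agent.Y528.RS.BINOM
import Pool.Agent.Y528.RS.WALK
import Pool.Agent.Y528.RS.WCNT
import Pool.Agent.Y438.RS.SMALL
import Pool.Agent.Y188.RS.LOCAL
import Pool.Agent.Y448.RS.NAM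
import Pool.Agent.Y375.RS.MC
import Pool.Agent.Y375.RS.BIG
import Pool.Agent.Y891.RC.SPREAD
import Pool.Agent.Y891.RC.HP
import Pool.Agent.Y891.RC.HIGH
import Pool.Agent.Y412.RS.NUM
import Pool.Agent.Y395.RS.Compl

set_option autoImplicit false

/-! Project RS: almost all spanning subgraphs and supergraphs of every large graph are
reconstructible. -/

namespace Pool.Agent.Y395.RS

open Finset Pool.Agent.H234RC Pool.Agent.TH953.RC

theorem t_PAIR : PAIR := Pool.Agent.Y528.RS.PAIR.main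
theorem t_CERT : CERT := Pool.Agent.Y86.RS.CERT.main t_PAIR
theorem t_BINOM : BINOM := Pool.Agent.Y528.RS.BINOM.main
theorem t_WALK : WALK := Pool.Agent.Y528.RS.WALK.main
theorem t_WCNT : WCNT := Pool.Agent.Y528.RS.WCNT.main
theorem t_MC : MC := Pool.Agent.Y375.RS.MC.main t_BINOM
theorem t_BIG : BIG := Pool.Agent.Y375.RS.BIG.main t_CERT t_WALK t_WCNT
theorem t_SPREAD : SPREAD := Pool.Agent.Y891.RC.main t_BINOM
theorem t_HP : HP := Pool.Agent.Y891.RC.HPf.main t_MC
theorem t_NAM : NAM := Pool.Agent.Y448.RS.main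
theorem t_HIGH : HIGH := Pool.Agent.Y891.RC.HIf.main t_SPREAD t_HP t_NAM

theorem fin_cnt : ∃ n₀ : ℕ, ∀ (V : Type) [Fintype V] (G : SimpleGraph V),
      n₀ ≤ Fintype.card V → cnt (ed G) (fun F => ¬ Reconstructible (gr F)) ≤
        (Fintype.card V : ℝ) ^ (-(1 / 20) : ℝ) * 2 ^ (ed G).card :=
  final Pool.Agent.Y125.RS.star Pool.Agent.Y297.RS.HALF.main Pool.Agent.Y528.RS.CORE1.main
    Pool.Agent.Y528.RS.CLOS.main (Pool.Agent.Y405.RS.Core2.main t_CERT) Pool.Agent.Y125.RS.iso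
    Pool.Agent.Y125.RS.deg t_BIG Pool.Agent.Y438.RS.main Pool.Agent.Y188.RS.main t_HIGH
    Pool.Agent.Y412.RS.NUM.main

section

variable {V : Type} [Fintype V]

theorem gr_ed (H : SimpleGraph V) : gr (ed H) = H := by
  ext x y
  rw [gr_adj, mem_ed]
  exact ⟨fun h => h.1, fun h => ⟨h, h.ne⟩⟩

theorem ed_gr {G : SimpleGraph V} {F : Finset (Sym2 V)} (hF : F ⊆ ed G) : ed (gr F) = F := by
  ext e
  induction e with
  | _ x y =>
    rw [mem_ed, gr_adj_of hF]

theorem ed_mono {G H : SimpleGraph V} (h : H ≤ G) : ed H ⊆ ed G := by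
  intro e
  induction e with
  | _ x y =>
    rw [mem_ed, mem_ed]
    exact fun hxy => h hxy

theorem gr_le {G : SimpleGraph V} {F : Finset (Sym2 V)} (hF : F ⊆ ed G) : gr F ≤ G := by
  intro x y h
  rw [gr_adj_of hF] at h
  exact (mem_ed G x y).1 (hF h)

/-- subsets of `ed G` and subgraphs of `G` -/
theorem ncard_sub (G : SimpleGraph V) (P : SimpleGraph V → Prop) :
    (({H : SimpleGraph V | H ≤ G ∧ P H}.ncard : ℕ) : ℝ) = cnt (ed G) (fun F => P (gr F)) := by
  classical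
  unfold cnt
  congr 1
  have e : {H : SimpleGraph V | H ≤ G ∧ P H} =
      ((((ed G).powerset.filter (fun F => P (gr F))).image gr : Finset (SimpleGraph V)) :
        Set (SimpleGraph V)) := by
    ext H
    simp only [Set.mem_ofPred_eq, coe_image, coe_filter, mem_powerset, Set.mem_image]
    constructor
    · rintro ⟨h1, h2⟩
      exact ⟨ed H, ⟨ed_mono h1, by rw [gr_ed]; exact h2⟩, gr_ed H⟩
    · rintro ⟨F, ⟨hF, hP⟩, rfl⟩
      exact ⟨gr_le hF, hP⟩
  rw [e, Set.ncard_coe_finset, card_image_of_injOn]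
  intro F hF F' hF' h
  have hF1 := (mem_powerset.1 (mem_filter.1 (mem_coe.1 hF)).1)
  have hF2 := (mem_powerset.1 (mem_filter.1 (mem_coe.1 hF')).1)
  rw [← ed_gr hF1, ← ed_gr hF2, h]

end

/-- the theorem for subgraphs and supergraphs -/
theorem fin_graph : ∃ n₀ : ℕ, ∀ (V : Type) [Fintype V] (G : SimpleGraph V),
    n₀ ≤ Fintype.card V →
    (({H : SimpleGraph V | H ≤ G ∧ ¬ Reconstructible H}.ncard : ℕ) : ℝ) ≤
        (Fintype.card V : ℝ) ^ (-(1 / 20) : ℝ) *
          (({H : SimpleGraph V | H ≤ G}.ncard : ℕ) : ℝ) ∧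
    (({H : SimpleGraph V | G ≤ H ∧ ¬ Reconstructible H}.ncard : ℕ) : ℝ) ≤
        (Fintype.card V : ℝ) ^ (-(1 / 20) : ℝ) *
          (({H : SimpleGraph V | G ≤ H}.ncard : ℕ) : ℝ) := by
  classical
  obtain ⟨n₀, h⟩ := fin_cnt
  refine ⟨n₀, fun V _ G hn => ?_⟩
  have key : ∀ G : SimpleGraph V,
      (({H : SimpleGraph V | H ≤ G ∧ ¬ Reconstructible H}.ncard : ℕ) : ℝ) ≤
        (Fintype.card V : ℝ) ^ (-(1 / 20) : ℝ) *
          (({H : SimpleGraph V | H ≤ G}.ncard : ℕ) : ℝ) := by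
    intro G
    rw [ncard_sub G (fun H => ¬ Reconstructible H)]
    have e : (({H : SimpleGraph V | H ≤ G}.ncard : ℕ) : ℝ) = 2 ^ (ed G).card := by
      rw [← cnt_true, ← ncard_sub G (fun _ => True)]
      congr 2
      ext H
      simp
    rw [e]
    exact h V G hn
  refine ⟨key G, ?_⟩
  have hinj : Function.Injective (fun H : SimpleGraph V => Hᶜ) := compl_injective
  have e1 : {H : SimpleGraph V | G ≤ H ∧ ¬ Reconstructible H}.ncard =
      {H : SimpleGraph V | H ≤ Gᶜ ∧ ¬ Reconstructible H}.ncard := by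
    rw [← Set.ncard_image_of_injective _ hinj]
    congr 1
    ext H
    simp only [Set.mem_image, Set.mem_ofPred_eq]
    constructor
    · rintro ⟨K, ⟨h1, h2⟩, rfl⟩
      refine ⟨compl_le_compl h1, fun h3 => h2 ?_⟩
      have := recon_compl _ h3
      rwa [compl_compl] at this
    · rintro ⟨h1, h2⟩
      refine ⟨Hᶜ, ⟨le_compl_comm.1 h1, fun h3 => h2 ?_⟩, compl_compl H⟩
      have := recon_compl _ h3
      rwa [compl_compl] at this
  have e2 : {H : SimpleGraph V | G ≤ H}.ncard = {H : SimpleGraph V | H ≤ Gᶜ}.ncard := by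
    rw [← Set.ncard_image_of_injective _ hinj]
    congr 1
    ext H
    simp only [Set.mem_image, Set.mem_ofPred_eq]
    constructor
    · rintro ⟨K, h1, rfl⟩
      exact compl_le_compl h1
    · intro h1
      exact ⟨Hᶜ, le_compl_comm.1 h1, compl_compl H⟩
  rw [e1, e2]
  exact key Gᶜ

end Pool.Agent.Y395.RS
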