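import Mathlib

set_option autoImplicit false

/-! Uniformly random subsets of a finite set: counting lemmas (project RS). -/

namespace Pool.Agent.Y395.RS

open Finset

open Classical in
/-- the number of the subsets of `E` with the property `P` -/
noncomputable def cnt {α : Type} (E : Finset α) (P : Finset α → Prop) : ℝ :=
  ((E.powerset.filter (fun F => P F)).card : ℝ)

theorem cnt_eq {α : Type} (E : Finset α) (P : Finset α → Prop) [DecidablePred P] :
    cnt E P = ((E.powerset.filter P).card : ℝ) := by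
  unfold cnt
  congr

theorem cnt_nonneg {α : Type} (E : Finset α) (P : Finset α → Prop) : 0 ≤ cnt E P :=
  Nat.cast_nonneg _

/-- monotonicity -/
theorem cnt_mono {α : Type} {E : Finset α} {P Q : Finset α → Prop}
    (h : ∀ F, F ⊆ E → P F → Q F) : cnt E P ≤ cnt E Q := by
  classical
  unfold cnt
  apply Nat.cast_le.2
  apply card_le_card
  intro F hF
  rw [mem_filter, mem_powerset] at hF ⊢
  exact ⟨hF.1, h F hF.1 hF.2⟩

theorem cnt_congr {α : Type} {E : Finset α} {P Q : Finset α → Prop}
    (h : ∀ F, F ⊆ E → (P F ↔ Q F)) : cnt E P = cnt E Q :=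
  le_antisymm (cnt_mono fun F hF => (h F hF).1) (cnt_mono fun F hF => (h F hF).2)

theorem cnt_true {α : Type} (E : Finset α) : cnt E (fun _ => True) = 2 ^ E.card := by
  classical
  unfold cnt
  rw [filter_true, card_powerset]
  push_cast
  rfl

theorem cnt_le_all {α : Type} (E : Finset α) (P : Finset α → Prop) : cnt E P ≤ 2 ^ E.card := by
  rw [← cnt_true]
  exact cnt_mono fun _ _ _ => trivial

theorem cnt_false {α : Type} (E : Finset α) : cnt E (fun _ => False) = 0 := by
  classical
  unfold cnt
  simp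

/-- union bound for two events -/
theorem cnt_or {α : Type} (E : Finset α) (P Q : Finset α → Prop) :
    cnt E (fun F => P F ∨ Q F) ≤ cnt E P + cnt E Q := by
  classical
  unfold cnt
  rw [← Nat.cast_add]
  apply Nat.cast_le.2
  refine le_trans (card_le_card ?_) (card_union_le _ _)
  intro F hF
  simp only [mem_filter, mem_union] at hF ⊢
  rcases hF.2 with h | h
  · exact Or.inl ⟨hF.1, h⟩
  · exact Or.inr ⟨hF.1, h⟩

/-- union bound -/
theorem cnt_ex {α ι : Type} (E : Finset α) (I : Finset ι) (P : ι → Finset α → Prop) :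
    cnt E (fun F => ∃ i ∈ I, P i F) ≤ ∑ i ∈ I, cnt E (P i) := by
  classical
  induction I using Finset.induction_on with
  | empty =>
    rw [sum_empty]
    have : cnt E (fun F => ∃ i ∈ (∅ : Finset ι), P i F) = 0 := by
      rw [← cnt_false E]
      exact cnt_congr fun F _ => by simp
    rw [this]
  | insert a I ha ih =>
    rw [sum_insert ha]
    refine le_trans (cnt_mono (Q := fun F => P a F ∨ ∃ i ∈ I, P i F) fun F _ h => ?_)
      ((cnt_or _ _ _).trans (add_le_add le_rfl ih))
    obtain ⟨i, hi, h⟩ := h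
    rcases mem_insert.1 hi with rfl | hi
    · exact Or.inl h
    · exact Or.inr ⟨i, hi, h⟩

/-- a sum over the traces outside `T` -/
theorem cnt_split {α : Type} [DecidableEq α] (E T : Finset α) (hT : T ⊆ E)
    (P : Finset α → Prop) :
    cnt E P = ∑ F0 ∈ (E \ T).powerset, cnt T (fun A => P (F0 ∪ A)) := by
  classical
  unfold cnt
  rw [← Nat.cast_sum]
  congr 1
  rw [← card_sigma]
  apply card_bij' (i := fun F _ => (⟨F \ T, F ∩ T⟩ : Σ _ : Finset α, Finset α))
    (j := fun p _ => p.1 ∪ p.2)
  · intro F hF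
    rw [mem_filter, mem_powerset] at hF
    rw [mem_sigma, mem_powerset, mem_filter, mem_powerset]
    refine ⟨sdiff_subset_sdiff hF.1 subset_rfl, inter_subset_right, ?_⟩
    show P (F \ T ∪ F ∩ T)
    rw [sdiff_union_inter]
    exact hF.2
  · intro p hp
    rw [mem_sigma, mem_powerset, mem_filter, mem_powerset] at hp
    rw [mem_filter, mem_powerset]
    exact ⟨union_subset (hp.1.trans sdiff_subset) (hp.2.1.trans hT), hp.2.2⟩
  · intro F hF
    exact sdiff_union_inter F T
  · rintro ⟨p, q⟩ hp
    rw [mem_sigma, mem_powerset, mem_filter, mem_powerset] at hp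
    have h1 : p ⊆ E \ T := hp.1
    have h2 : q ⊆ T := hp.2.1
    have e1 : (p ∪ q) \ T = p := by
      ext x
      rw [mem_sdiff, mem_union]
      constructor
      · rintro ⟨h | h, h'⟩
        · exact h
        · exact absurd (h2 h) h'
      · intro h
        exact ⟨Or.inl h, (mem_sdiff.1 (h1 h)).2⟩
    have e2 : (p ∪ q) ∩ T = q := by
      ext x
      rw [mem_inter, mem_union]
      constructor
      · rintro ⟨h | h, h'⟩
        · exact absurd h' (mem_sdiff.1 (h1 h)).2
        · exact h
      · intro h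
        exact ⟨Or.inr h, h2 h⟩
    show (⟨(p ∪ q) \ T, (p ∪ q) ∩ T⟩ : Σ _ : Finset α, Finset α) = ⟨p, q⟩
    rw [e1, e2]

/-- a bound for all traces outside `T` gives a bound -/
theorem cnt_cond {α : Type} [DecidableEq α] (E T : Finset α) (hT : T ⊆ E)
    (P : Finset α → Prop) (ρ : ℝ)
    (h : ∀ F0 : Finset α, F0 ⊆ E \ T → cnt T (fun A => P (F0 ∪ A)) ≤ ρ * 2 ^ T.card) :
    cnt E P ≤ ρ * 2 ^ E.card := by
  rw [cnt_split E T hT P]
  calc ∑ F0 ∈ (E \ T).powerset, cnt T (fun A => P (F0 ∪ A))
      ≤ ∑ F0 ∈ (E \ T).powerset, ρ * 2 ^ T.card :=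
        sum_le_sum fun F0 hF0 => h F0 (mem_powerset.1 hF0)
    _ = 2 ^ (E \ T).card * (ρ * 2 ^ T.card) := by
        rw [sum_const, card_powerset, nsmul_eq_mul]
        push_cast
        rfl
    _ = ρ * 2 ^ E.card := by
        rw [← card_sdiff_add_card_eq_card hT, pow_add]
        ring

/-- independent blocks: if the trace of `F` on each of the pairwise disjoint sets `B i` must have
the property `A i`, the bounds for the blocks multiply -/
theorem cnt_blocks {α ι : Type} [DecidableEq α] (E : Finset α) (I : Finset ι)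
    (B : ι → Finset α) (A : ι → Finset α → Prop) (ρ : ι → ℝ) (hB : ∀ i ∈ I, B i ⊆ E)
    (hd : ∀ i ∈ I, ∀ j ∈ I, i ≠ j → Disjoint (B i) (B j))
    (h : ∀ i ∈ I, cnt (B i) (A i) ≤ ρ i * 2 ^ (B i).card) :
    cnt E (fun F => ∀ i ∈ I, A i (F ∩ B i)) ≤ (∏ i ∈ I, ρ i) * 2 ^ E.card := by
  classical
  induction I using Finset.induction_on generalizing E with
  | empty =>
    rw [prod_empty, one_mul]
    exact cnt_le_all _ _
  | insert a I ha ih =>
    have hρ : ∀ i ∈ insert a I, 0 ≤ ρ i := by
      intro i hi
      have h1 := (cnt_nonneg (B i) (A i)).trans (h i hi)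
      exact nonneg_of_mul_nonneg_left h1 (by positivity)
    have haE := hB a (mem_insert_self _ _)
    -- condition on the block `B a`
    have hsub : ∀ i ∈ I, B i ⊆ E \ B a := by
      intro i hi x hx
      rw [mem_sdiff]
      refine ⟨hB i (mem_insert_of_mem hi) hx, fun hxa => ?_⟩
      have := hd i (mem_insert_of_mem hi) a (mem_insert_self _ _) (fun e => ha (e ▸ hi))
      exact disjoint_left.1 this hx hxa
    have ih' := ih (E \ B a) hsub
      (fun i hi j hj => hd i (mem_insert_of_mem hi) j (mem_insert_of_mem hj))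
      (fun i hi => h i (mem_insert_of_mem hi))
    rw [cnt_split E (B a) haE, prod_insert ha]
    have key : ∀ F0 ∈ (E \ B a).powerset,
        cnt (B a) (fun A' => ∀ i ∈ insert a I, A i ((F0 ∪ A') ∩ B i)) ≤
          (if (∀ i ∈ I, A i (F0 ∩ B i)) then ρ a * 2 ^ (B a).card else 0) := by
      intro F0 hF0
      have hF0' := mem_powerset.1 hF0
      split_ifs with hc
      · refine le_trans (cnt_mono fun A' hA' hh => ?_) (h a (mem_insert_self _ _))
        have := hh a (mem_insert_self _ _)
        have e : (F0 ∪ A') ∩ B a = A' := by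
          ext x
          rw [mem_inter, mem_union]
          constructor
          · rintro ⟨h1 | h1, h2⟩
            · exact absurd h2 (mem_sdiff.1 (hF0' h1)).2
            · exact h1
          · intro h1
            exact ⟨Or.inr h1, hA' h1⟩
        rwa [e] at this
      · rw [← cnt_false (B a)]
        refine cnt_mono fun A' hA' hh => hc fun i hi => ?_
        have := hh i (mem_insert_of_mem hi)
        have e : (F0 ∪ A') ∩ B i = F0 ∩ B i := by
          ext x
          rw [mem_inter, mem_union, mem_inter]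
          constructor
          · rintro ⟨h1 | h1, h2⟩
            · exact ⟨h1, h2⟩
            · exact absurd (hA' h1) (mem_sdiff.1 (hsub i hi h2)).2
          · rintro ⟨h1, h2⟩
            exact ⟨Or.inl h1, h2⟩
        rwa [e] at this
    calc ∑ F0 ∈ (E \ B a).powerset, cnt (B a) (fun A' => ∀ i ∈ insert a I, A i ((F0 ∪ A') ∩ B i))
        ≤ ∑ F0 ∈ (E \ B a).powerset,
          (if (∀ i ∈ I, A i (F0 ∩ B i)) then ρ a * 2 ^ (B a).card else 0) := sum_le_sum key
      _ = cnt (E \ B a) (fun F => ∀ i ∈ I, A i (F ∩ B i)) * (ρ a * 2 ^ (B a).card) := by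
        rw [← sum_filter, sum_const, nsmul_eq_mul]
        rw [cnt_eq]
      _ ≤ ((∏ i ∈ I, ρ i) * 2 ^ (E \ B a).card) * (ρ a * 2 ^ (B a).card) :=
        mul_le_mul_of_nonneg_right ih'
          (mul_nonneg (hρ a (mem_insert_self _ _)) (by positivity))
      _ = (ρ a * ∏ i ∈ I, ρ i) * 2 ^ E.card := by
        rw [← card_sdiff_add_card_eq_card haE, pow_add]
        ring

end Pool.Agent.Y395.RS
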