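import Mathlib

set_option autoImplicit false

/-! Project RS (helper395): the choice of the parameters. -/

namespace Pool.Agent.Y395.RS

/-- NUM: the parameters -/
def NUM : Prop := ∃ n₀ : ℕ, ∀ n : ℕ, n₀ ≤ n →
  ∃ b0 m0 D1 J h N0 b m1 d g K0 : ℕ, ∃ θ : ℝ,
    3 ≤ n ∧ 2 ≤ b0 ∧ 1 ≤ D1 ∧
    (1 - (1 / 2 : ℝ) ^ b0) ^ m0 ≤ 1 / n ∧
    (300 * (Nat.log 2 n + 1) + 3) * N0 + (300 * (Nat.log 2 n + 1) + 3) + m0 * (b0 + 1) ≤ D1 ∧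
    (16 * J) ^ 2 ≤ b0 - 1 ∧ n ^ 200 ≤ (h + 1) ^ (J + 1) ∧
    400 * (Nat.log 2 n + 1) * h + 5 ≤ N0 ∧ 32 * (n + 2) ^ J * n ^ 10 ≤ 2 ^ N0 ∧
    (1 - (1 / 2 : ℝ) ^ b) ^ m1 ≤ 1 / n ∧
    32 * (m1 * (b + 1)) + 8 ≤ 3 * n ∧
    3 * d ≤ b ∧ 18 * g + 3 ≤ d ∧ K0 + 3 ≤ d ∧
    ((D1 : ℝ) * (((D1 + 4) * (Nat.log 2 n + 1) : ℕ) : ℝ)) ^ 2 * (3 / 4) ^ g ≤ θ ∧ θ ≤ 1 / 2 ∧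
    2 * (n : ℝ) ^ 5 * θ ^ (K0 + 1) ≤ 1 ∧
    4 / (n : ℝ) + 8 * (2 * D1 * ((d : ℝ) + 1) ^ (K0 + 3) * (3 / 4) ^ (d - K0 - 3)) ≤
      (n : ℝ) ^ (-(1 / 20) : ℝ)

end Pool.Agent.Y395.RS
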