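import Pool.Agent.Y395.RS.Stm
import Pool.Agent.Y395.RS.Stm2

set_option autoImplicit false

/-! Project RS: the assembly. -/

namespace Pool.Agent.Y395.RS

open Finset Pool.Agent.H234RC Pool.Agent.TH953.RC

open Classical in
/-- Markov's inequality for the number of the events `P i` that occur -/
theorem markov {α ι : Type} (E : Finset α) (I : Finset ι) (P : ι → Finset α → Prop) (p : ℝ)
    (n : ℕ) (hn : 0 < n) (hI : I.card ≤ n) (hp : 0 ≤ p)
    (h : ∀ i ∈ I, cnt E (P i) ≤ p * 2 ^ E.card) :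
    cnt E (fun F => n < 8 * (I.filter (fun i => P i F)).card) ≤ 8 * p * 2 ^ E.card := by
  have hn' : (0 : ℝ) < n := by exact_mod_cast hn
  have key : (n : ℝ) * cnt E (fun F => n < 8 * (I.filter (fun i => P i F)).card) ≤
      8 * ∑ i ∈ I, cnt E (P i) := by
    have e1 : ∑ i ∈ I, cnt E (P i) =
        ∑ F ∈ E.powerset, ((I.filter (fun i => P i F)).card : ℝ) := by
      have : ∀ i ∈ I, cnt E (P i) = ∑ F ∈ E.powerset, (if P i F then (1 : ℝ) else 0) := by
        intro i _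
        rw [cnt_eq, sum_boole]
      rw [sum_congr rfl this, sum_comm]
      apply sum_congr rfl
      intro F _
      rw [sum_boole]
    rw [e1, cnt_eq, mul_sum]
    calc (n : ℝ) * ((E.powerset.filter
          (fun F => n < 8 * (I.filter (fun i => P i F)).card)).card : ℝ)
        = ∑ F ∈ E.powerset.filter (fun F => n < 8 * (I.filter (fun i => P i F)).card),
            (n : ℝ) := by
          rw [sum_const, nsmul_eq_mul, mul_comm]
      _ ≤ ∑ F ∈ E.powerset.filter (fun F => n < 8 * (I.filter (fun i => P i F)).card),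
            8 * ((I.filter (fun i => P i F)).card : ℝ) := by
          apply sum_le_sum
          intro F hF
          have := (mem_filter.1 hF).2
          have h' : ((n : ℕ) : ℝ) ≤ ((8 * (I.filter (fun i => P i F)).card : ℕ) : ℝ) :=
            Nat.cast_le.2 this.le
          push_cast at h'
          exact h'
      _ ≤ ∑ F ∈ E.powerset, 8 * ((I.filter (fun i => P i F)).card : ℝ) := by
          apply sum_le_sum_of_subset_of_nonneg (filter_subset _ _)
          intro F _ _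
          positivity
  have h2 : ∑ i ∈ I, cnt E (P i) ≤ (n : ℝ) * (p * 2 ^ E.card) := by
    calc ∑ i ∈ I, cnt E (P i) ≤ ∑ i ∈ I, p * 2 ^ E.card := sum_le_sum h
      _ = (I.card : ℝ) * (p * 2 ^ E.card) := by rw [sum_const, nsmul_eq_mul]
      _ ≤ (n : ℝ) * (p * 2 ^ E.card) := by
        apply mul_le_mul_of_nonneg_right (by exact_mod_cast hI)
        positivity
  have h3 : (n : ℝ) * cnt E (fun F => n < 8 * (I.filter (fun i => P i F)).card) ≤
      (n : ℝ) * (8 * p * 2 ^ E.card) := by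
    calc _ ≤ 8 * ∑ i ∈ I, cnt E (P i) := key
      _ ≤ 8 * ((n : ℝ) * (p * 2 ^ E.card)) := by linarith
      _ = _ := by ring
  exact le_of_mul_le_mul_left h3 hn'

theorem aux_n (n : ℝ) (hn : 1 ≤ n) : n * (1 / n ^ 4) ≤ 1 / n := by
  rw [mul_one_div, div_le_div_iff₀ (by positivity) (by linarith)]
  have : (1 : ℝ) ≤ n ^ 2 := one_le_pow₀ hn
  nlinarith [sq_nonneg n]

theorem final (hSTAR : STAR) (hHALF : HALF) (hCORE1 : CORE1) (hCLOS : CLOS) (hCORE2 : CORE2)
    (hISO : ISO) (hDEG : DEG) (hBIG : BIG) (hSMALL : SMALL) (hLOCAL : LOCAL) (hHIGH : HIGH)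
    (hNUM : NUM) : ∃ n₀ : ℕ, ∀ (V : Type) [Fintype V] (G : SimpleGraph V),
      n₀ ≤ Fintype.card V → cnt (ed G) (fun F => ¬ Reconstructible (gr F)) ≤
        (Fintype.card V : ℝ) ^ (-(1 / 20) : ℝ) * 2 ^ (ed G).card := by
  classical
  obtain ⟨n₀, hnum⟩ := hNUM
  refine ⟨n₀, fun V _ G hn => ?_⟩
  obtain ⟨b0, m0, D1, J, h, N0, b, m1, d, g, K0, θ, c3, cb0, cD1, c1, c2, c4, c5, c6, c7, c8, c9,
    c10, c11, c12, c13, c14, c15, c16⟩ := hnum _ hn
  set n := Fintype.card V with hndef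
  set L := Nat.log 2 n + 1 with hL
  have hE : (0 : ℝ) < 2 ^ (ed G).card := by positivity
  have hn2 : 2 ≤ n := by omega
  have hnR : (0 : ℝ) < n := by exact_mod_cast (by omega : 0 < n)
  have hp0 : 0 ≤ 2 * (D1 : ℝ) * ((d : ℝ) + 1) ^ (K0 + 3) * (3 / 4) ^ (d - K0 - 3) := by positivity
  have hfrac : ∀ a : ℝ, a ≤ 4 → a / n ≤ (n : ℝ) ^ (-(1 / 20) : ℝ) := by
    intro a ha
    refine le_trans ?_ c16
    have : a / n ≤ 4 / n := div_le_div_of_nonneg_right ha hnR.le
    linarith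
  -- vertices of small degree
  set A0 : Finset V := univ.filter (fun v => (nb G univ v).card ≤ b0) with hA0
  by_cases hA : m0 * (b0 + 1) ≤ A0.card
  · have h1 := hISO V G univ A0 b0 m0 (subset_univ _) (fun x hx => (mem_filter.1 hx).2) hA
    have h2 : cnt (ed G) (fun F => ¬ Reconstructible (gr F)) ≤
        cnt (ed G) (fun F => ∀ z ∈ A0, ∃ y ∈ univ, s(z, y) ∈ F) := by
      refine cnt_mono fun F _ hr => ?_
      by_contra hcon
      push Not at hcon
      obtain ⟨z, -, hz⟩ := hcon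
      exact hr (hSTAR V (gr F) z c3
        (fun u hu => absurd ((gr_adj F z u).1 hu).1 (hz u (mem_univ _))))
    refine h2.trans (h1.trans (mul_le_mul_of_nonneg_right (c1.trans ?_) hE.le))
    exact hfrac 1 (by norm_num)
  push Not at hA
  set k := 300 * L + 3 with hk
  obtain ⟨Y, hY1, hY2, hY3, -⟩ := hCORE1 V G k (by omega)
  set Sp : Finset V := univ.filter (fun v => v ∉ Y ∧ (nb G univ v).card ≤ D1) with hSp
  set Dp : Finset V := univ.filter (fun v => v ∉ Y ∧ D1 < (nb G univ v).card) with hDp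
  have mSp : ∀ v, v ∈ Sp ↔ v ∉ Y ∧ (nb G univ v).card ≤ D1 := fun v => by simp [hSp]
  have mDp : ∀ v, v ∈ Dp ↔ v ∉ Y ∧ D1 < (nb G univ v).card := fun v => by simp [hDp]
  -- the core
  have hE1 : cnt (ed G) (fun F => ∃ y ∈ Y, ¬ Rn (gr F) y) ≤ 1 / (n : ℝ) * 2 ^ (ed G).card :=
    hCORE2 V G Y k hn2 hY1 le_rfl
  -- vertices of large degree
  have hE2 : cnt (ed G) (fun F => ∃ v ∈ Dp, ¬ Rn (gr F) v) ≤ 1 / (n : ℝ) * 2 ^ (ed G).card := by
    refine (cnt_ex (ed G) Dp (fun v F => ¬ Rn (gr F) v)).trans ?_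
    have hv : ∀ v ∈ Dp, cnt (ed G) (fun F => ¬ Rn (gr F) v) ≤
        1 / (n : ℝ) ^ 4 * 2 ^ (ed G).card := by
      intro v hvD
      obtain ⟨hvY, hvd⟩ := (mDp v).1 hvD
      set U : Finset V := nb G univ v \ (Y ∪ A0) with hU
      obtain ⟨I, hIU, hI, hUI⟩ := hY3 U (by
        rw [disjoint_left]
        intro x hx hxY
        exact (mem_sdiff.1 hx).2 (mem_union_left _ hxY))
      have hcard : (nb G univ v).card ≤ (nb G Y v).card + A0.card + U.card := by
        have hsub : nb G univ v ⊆ (nb G Y v ∪ A0) ∪ U := by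
          intro x hx
          by_cases hxY : x ∈ Y
          · exact mem_union_left _ (mem_union_left _
              ((mem_nb G Y v x).2 ⟨hxY, ((mem_nb G univ v x).1 hx).2⟩))
          · by_cases hxA : x ∈ A0
            · exact mem_union_left _ (mem_union_right _ hxA)
            · refine mem_union_right _ (mem_sdiff.2 ⟨hx, fun hc => ?_⟩)
              rcases mem_union.1 hc with hc | hc
              · exact hxY hc
              · exact hxA hc
        have a1 := card_le_card hsub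
        have a2 := card_union_le (nb G Y v ∪ A0) U
        have a3 := card_union_le (nb G Y v) A0
        omega
      have hNI : N0 ≤ I.card := by
        by_contra hcon
        push Not at hcon
        have e1 := hY2 v hvY
        have e2 : k * I.card ≤ k * N0 := Nat.mul_le_mul_left _ hcon.le
        omega
      refine hHIGH V G v I (b0 - 2) J h hn2 (fun x hx => (mem_sdiff.1 (hIU hx)).1) hI ?_ ?_ c5
        (c6.trans hNI) (c7.trans (Nat.pow_le_pow_right (by norm_num) hNI))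
      · intro z hz
        have hzA : z ∉ A0 := fun hc => (mem_sdiff.1 (hIU hz)).2 (mem_union_right _ hc)
        have : ¬ (nb G univ z).card ≤ b0 := fun hc => hzA (mem_filter.2 ⟨mem_univ _, hc⟩)
        omega
      · have e : b0 - 2 + 1 = b0 - 1 := by omega
        rw [e]
        exact c4
    refine (sum_le_sum hv).trans ?_
    rw [sum_const, nsmul_eq_mul]
    have hDn : (Dp.card : ℝ) ≤ n := by exact_mod_cast card_le_univ Dp
    have hn1 : (1 : ℝ) ≤ n := by exact_mod_cast (by omega : 1 ≤ n)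
    calc (Dp.card : ℝ) * (1 / (n : ℝ) ^ 4 * 2 ^ (ed G).card)
        ≤ (n : ℝ) * (1 / (n : ℝ) ^ 4 * 2 ^ (ed G).card) :=
          mul_le_mul_of_nonneg_right hDn (by positivity)
      _ = ((n : ℝ) * (1 / (n : ℝ) ^ 4)) * 2 ^ (ed G).card := by ring
      _ ≤ 1 / (n : ℝ) * 2 ^ (ed G).card := by
        apply mul_le_mul_of_nonneg_right _ hE.le
        exact aux_n (n : ℝ) hn1
  -- vertices of small degree inside `Sp`
  set Ls : Finset V := Sp.filter (fun x => (nb G Sp x).card ≤ b) with hLs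
  by_cases hB : m1 * (b + 1) ≤ Ls.card
  · have h1 := hISO V G Sp Ls b m1 (filter_subset _ _) (fun x hx => (mem_filter.1 hx).2) hB
    have h2 : cnt (ed G) (fun F => ¬ Reconstructible (gr F)) ≤
        cnt (ed G) (fun F => (∃ y ∈ Y, ¬ Rn (gr F) y) ∨ ((∃ v ∈ Dp, ¬ Rn (gr F) v) ∨
          ∀ z ∈ Ls, ∃ y ∈ Sp, s(z, y) ∈ F)) := by
      refine cnt_mono fun F _ hr => ?_
      by_contra hcon
      rw [not_or, not_or] at hcon
      obtain ⟨g1, g2, g3⟩ := hcon
      push Not at g1 g2 g3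
      obtain ⟨z, -, hz⟩ := g3
      refine hr (hSTAR V (gr F) z c3 (fun u hu => ?_))
      by_cases huY : u ∈ Y
      · exact g1 u huY
      · by_cases hud : (nb G univ u).card ≤ D1
        · exact absurd ((gr_adj F z u).1 hu).1 (hz u ((mSp u).2 ⟨huY, hud⟩))
        · exact g2 u ((mDp u).2 ⟨huY, by omega⟩)
    have h3 := (cnt_or (ed G) (fun F => ∃ v ∈ Dp, ¬ Rn (gr F) v)
      (fun F => ∀ z ∈ Ls, ∃ y ∈ Sp, s(z, y) ∈ F))
    have h4 := (cnt_or (ed G) (fun F => ∃ y ∈ Y, ¬ Rn (gr F) y)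
      (fun F => (∃ v ∈ Dp, ¬ Rn (gr F) v) ∨ ∀ z ∈ Ls, ∃ y ∈ Sp, s(z, y) ∈ F))
    have h5 : (1 - (1 / 2 : ℝ) ^ b) ^ m1 * 2 ^ (ed G).card ≤ 1 / n * 2 ^ (ed G).card :=
      mul_le_mul_of_nonneg_right c8 hE.le
    have h6 : cnt (ed G) (fun F => ¬ Reconstructible (gr F)) ≤ 3 / n * 2 ^ (ed G).card := by
      have e : 3 / (n : ℝ) * 2 ^ (ed G).card = 1 / (n : ℝ) * 2 ^ (ed G).card +
        (1 / (n : ℝ) * 2 ^ (ed G).card + 1 / (n : ℝ) * 2 ^ (ed G).card) := by ring
      rw [e]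
      linarith
    exact h6.trans (mul_le_mul_of_nonneg_right (hfrac 3 (by norm_num)) hE.le)
  push Not at hB
  obtain ⟨Q, hQS, -, hQd, hQc⟩ := hCLOS V G Sp Ls b (filter_subset _ _)
    (fun x hx hxL => by
      by_contra hc
      exact hxL (mem_filter.2 ⟨hx, by omega⟩))
    (fun x hx => (mem_filter.1 hx).2)
  set D2 := (D1 + 4) * L with hD2
  set Lo : Finset V := univ.filter (fun v => (nb G univ v).card ≤ D2) with hLo
  have nb_mono : ∀ (A : Finset V) (x : V), (nb G A x).card ≤ (nb G univ x).card := by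
    intro A x
    apply card_le_card
    intro y hy
    rw [mem_nb] at hy ⊢
    exact ⟨mem_univ _, hy.2⟩
  have hQ1 : ∀ x ∈ Q, (nb G univ x).card ≤ D1 := fun x hx => ((mSp x).1 (hQS hx)).2
  have hQ2 : ∀ x ∈ Q, d ≤ (nb G Q x).card := by
    intro x hx
    have := hQd x hx
    omega
  have hE3 : cnt (ed G) (fun F => ∃ v : V, D2 < (nb G univ v).card ∧
      (nb (gr F) univ v).card ≤ D1 + 2) ≤ 1 / (n : ℝ) * 2 ^ (ed G).card :=
    hDEG V G D1 D2 hn2 le_rfl
  have hL1 : 1 ≤ L := by omega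
  have hD21 : 1 ≤ D2 := by
    rw [hD2]
    exact Nat.one_le_iff_ne_zero.2 (Nat.mul_ne_zero (by omega) (by omega))
  have hE4 : cnt (ed G) (fun F => ∃ (φ : NAut V) (K : Finset V), K0 + 1 ≤ K.card ∧
      Piece Q Lo K φ F) ≤ 1 / (n : ℝ) * 2 ^ (ed G).card := by
    refine hBIG V G Q Lo d g D1 D2 (K0 + 1) θ hn2 hQ2
      (fun x hx => (nb_mono _ _).trans (hQ1 x hx)) ?_ cD1 hD21 c11 (by omega) c13 c14 c15
    intro x hx
    exact (nb_mono _ _).trans (mem_filter.1 hx).2
  set ps : ℝ := 2 * (D1 : ℝ) * ((d : ℝ) + 1) ^ (K0 + 3) * (3 / 4) ^ (d - K0 - 3) with hps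
  have hE5 : cnt (ed G) (fun F => n < 8 * (Q.filter (fun x => Small Q K0 x F)).card) ≤
      8 * ps * 2 ^ (ed G).card := by
    refine markov (ed G) Q (fun x F => Small Q K0 x F) ps n (by omega) (card_le_univ _) hp0 ?_
    intro x hx
    exact hSMALL V G Q d D1 K0 x hx (hQ2 x hx) hQ1 cD1 c12
  have h2 : cnt (ed G) (fun F => ¬ Reconstructible (gr F)) ≤
      cnt (ed G) (fun F => (∃ y ∈ Y, ¬ Rn (gr F) y) ∨ ((∃ v ∈ Dp, ¬ Rn (gr F) v) ∨
        ((∃ v : V, D2 < (nb G univ v).card ∧ (nb (gr F) univ v).card ≤ D1 + 2) ∨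
        ((∃ (φ : NAut V) (K : Finset V), K0 + 1 ≤ K.card ∧ Piece Q Lo K φ F) ∨
          n < 8 * (Q.filter (fun x => Small Q K0 x F)).card)))) := by
    refine cnt_mono fun F hF hr => ?_
    by_contra hcon
    rw [not_or, not_or, not_or, not_or] at hcon
    obtain ⟨g1, g2, g3, g4, g5⟩ := hcon
    push Not at g1 g2 g3 g5
    apply hr
    refine hHALF V (gr F) c3 ?_
    have hsub : Mv (gr F) ⊆ (Sp \ Q) ∪ Q.filter (fun x => Small Q K0 x F) := by
      intro v hv
      have hv' : ¬ Rn (gr F) v := (mem_Mv (gr F) v).1 hv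
      have hvY : v ∉ Y := fun hc => hv' (g1 v hc)
      have hvD : v ∉ Dp := fun hc => hv' (g2 v hc)
      have hvS : v ∈ Sp := by
        refine (mSp v).2 ⟨hvY, ?_⟩
        by_contra hc
        exact hvD ((mDp v).2 ⟨hvY, by omega⟩)
      by_cases hvQ : v ∈ Q
      · refine mem_union_right _ (mem_filter.2 ⟨hvQ, ?_⟩)
        have hlow : ∀ w : V, w ∉ Lo → D1 + 2 < (nb (gr F) univ w).card := by
          intro w hw
          by_contra hc
          have hwD : ¬ (nb G univ w).card ≤ D2 := fun hc' =>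
            hw (mem_filter.2 ⟨mem_univ _, hc'⟩)
          exact hc (g3 w (not_le.1 hwD))
        rcases hLOCAL V G Q Lo D1 K0 F v hF hvQ hQ1 hlow hv' with hs | hs
        · exact hs
        · exact absurd hs g4
      · exact mem_union_left _ (mem_sdiff.2 ⟨hvS, hvQ⟩)
    have a1 := (card_le_card hsub).trans (card_union_le _ _)
    omega
  have o1 := cnt_or (ed G) (fun F => ∃ y ∈ Y, ¬ Rn (gr F) y)
    (fun F => (∃ v ∈ Dp, ¬ Rn (gr F) v) ∨
        ((∃ v : V, D2 < (nb G univ v).card ∧ (nb (gr F) univ v).card ≤ D1 + 2) ∨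
        ((∃ (φ : NAut V) (K : Finset V), K0 + 1 ≤ K.card ∧ Piece Q Lo K φ F) ∨
          n < 8 * (Q.filter (fun x => Small Q K0 x F)).card)))
  have o2 := cnt_or (ed G) (fun F => ∃ v ∈ Dp, ¬ Rn (gr F) v)
    (fun F => (∃ v : V, D2 < (nb G univ v).card ∧ (nb (gr F) univ v).card ≤ D1 + 2) ∨
        ((∃ (φ : NAut V) (K : Finset V), K0 + 1 ≤ K.card ∧ Piece Q Lo K φ F) ∨
          n < 8 * (Q.filter (fun x => Small Q K0 x F)).card))
  have o3 := cnt_or (ed G)
    (fun F => ∃ v : V, D2 < (nb G univ v).card ∧ (nb (gr F) univ v).card ≤ D1 + 2)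
    (fun F => (∃ (φ : NAut V) (K : Finset V), K0 + 1 ≤ K.card ∧ Piece Q Lo K φ F) ∨
          n < 8 * (Q.filter (fun x => Small Q K0 x F)).card)
  have o4 := cnt_or (ed G)
    (fun F => ∃ (φ : NAut V) (K : Finset V), K0 + 1 ≤ K.card ∧ Piece Q Lo K φ F)
    (fun F => n < 8 * (Q.filter (fun x => Small Q K0 x F)).card)
  have h6 : cnt (ed G) (fun F => ¬ Reconstructible (gr F)) ≤
      (4 / (n : ℝ) + 8 * ps) * 2 ^ (ed G).card := by
    have e : (4 / (n : ℝ) + 8 * ps) * 2 ^ (ed G).card = 1 / (n : ℝ) * 2 ^ (ed G).card +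
      (1 / (n : ℝ) * 2 ^ (ed G).card + (1 / (n : ℝ) * 2 ^ (ed G).card +
      (1 / (n : ℝ) * 2 ^ (ed G).card + 8 * ps * 2 ^ (ed G).card))) := by ring
    rw [e]
    linarith
  exact h6.trans (mul_le_mul_of_nonneg_right c16 hE.le)

end Pool.Agent.Y395.RS
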