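import Pool.Agent.TH953.RC.Det
import Pool.Agent.Y395.RS.Basic

set_option autoImplicit false

/-!
Project RS (helper395): almost all spanning subgraphs of every large graph are reconstructible.
Definitions and statements of the lemmas.  A random spanning subgraph of `G` is given by a subset
`F` of `ed G`, the set of the edges of `G`; `cnt (ed G) P` is the number of the subsets with
property `P`.
-/

namespace Pool.Agent.Y395.RS

open Finset Pool.Agent.H234RC Pool.Agent.TH953.RC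

/-- the graph with the edge set `F` -/
def gr {V : Type} (F : Finset (Sym2 V)) : SimpleGraph V :=
  SimpleGraph.fromEdgeSet (F : Set (Sym2 V))

open Classical in
/-- the set of the edges of `G` -/
noncomputable def ed {V : Type} [Fintype V] (G : SimpleGraph V) : Finset (Sym2 V) :=
  univ.filter (fun e => e ∈ G.edgeSet)

open Classical in
/-- the neighbours of `x` in `A` -/
noncomputable def nb {V : Type} (G : SimpleGraph V) (A : Finset V) (x : V) : Finset V :=
  A.filter (fun y => G.Adj x y)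

/-- `I` is independent -/
def Indep {V : Type} (G : SimpleGraph V) (I : Finset V) : Prop := ∀ x ∈ I, ∀ y ∈ I, ¬ G.Adj x y

theorem mem_ed {V : Type} [Fintype V] (G : SimpleGraph V) (x y : V) :
    s(x, y) ∈ ed G ↔ G.Adj x y := by
  classical
  unfold ed
  rw [mem_filter]
  exact ⟨fun h => h.2, fun h => ⟨mem_univ _, h⟩⟩

theorem mem_nb {V : Type} (G : SimpleGraph V) (A : Finset V) (x y : V) :
    y ∈ nb G A x ↔ y ∈ A ∧ G.Adj x y := by
  classical
  unfold nb
  rw [mem_filter]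

theorem gr_adj {V : Type} (F : Finset (Sym2 V)) (x y : V) :
    (gr F).Adj x y ↔ s(x, y) ∈ F ∧ x ≠ y := by
  unfold gr
  rw [SimpleGraph.fromEdgeSet_adj]
  rfl

/-- for sets of edges of `G` the second condition is automatic -/
theorem gr_adj_of {V : Type} [Fintype V] {G : SimpleGraph V} {F : Finset (Sym2 V)} (hF : F ⊆ ed G)
    (x y : V) : (gr F).Adj x y ↔ s(x, y) ∈ F := by
  rw [gr_adj]
  exact ⟨fun h => h.1, fun h => ⟨h, ((mem_ed G x y).1 (hF h)).ne⟩⟩

/-! ### Deterministic part -/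

/-- STAR: a graph with at least three vertices is reconstructible if for some vertex all
neighbours are fixed by all near-automorphisms -/
def STAR : Prop := ∀ (V : Type) [Fintype V] (G : SimpleGraph V) (z : V), 3 ≤ Fintype.card V →
  (∀ u : V, G.Adj z u → Rn G u) → Reconstructible G

/-- HALF: a graph with at least three vertices is reconstructible if fewer than half of the
vertices are moved by near-automorphisms -/
def HALF : Prop := ∀ (V : Type) [Fintype V] [DecidableEq V] (G : SimpleGraph V),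
  3 ≤ Fintype.card V → 2 * (Mv G).card + 2 ≤ Fintype.card V → Reconstructible G

/-- CORE1: a core of minimum degree `k` -/
def CORE1 : Prop := ∀ (V : Type) [Fintype V] [DecidableEq V] (G : SimpleGraph V) (k : ℕ), 1 ≤ k →
  ∃ Y : Finset V, (∀ y ∈ Y, k ≤ (nb G Y y).card) ∧ (∀ v, v ∉ Y → (nb G Y v).card < k) ∧
    (∀ U : Finset V, Disjoint U Y → ∃ I : Finset V, I ⊆ U ∧ Indep G I ∧ U.card ≤ k * I.card) ∧
    (∑ x ∈ univ \ Y, (nb G univ x).card ≤ 2 * k * (univ \ Y).card)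

/-- CLOS: if few vertices of `S` have degree at most `b` in `G[S]`, the others contain a large set
which induces a graph of minimum degree at least `b / 3` -/
def CLOS : Prop := ∀ (V : Type) [Fintype V] [DecidableEq V] (G : SimpleGraph V) (S L : Finset V)
  (b : ℕ), L ⊆ S → (∀ x ∈ S, x ∉ L → b < (nb G S x).card) → (∀ x ∈ L, (nb G S x).card ≤ b) →
  ∃ Q : Finset V, Q ⊆ S ∧ Disjoint Q L ∧ (∀ x ∈ Q, b ≤ 3 * (nb G Q x).card) ∧
    (S \ Q).card ≤ 4 * L.card

/-! ### Probability -/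

/-- PAIR: the implications `a ∈ F → f a ∈ F` for all `a ∈ S`, where `f` has no fixed point in `S`
and at most four elements of `S` have the same image -/
def PAIR : Prop := ∀ (α : Type) [DecidableEq α] (E S : Finset α) (f : α → α) (m : ℕ), S ⊆ E →
  (∀ a ∈ S, f a ≠ a) → (∀ b, (S.filter (fun a => f a = b)).card ≤ 4) → 9 * m ≤ S.card →
  cnt E (fun F => ∀ a ∈ S, a ∈ F → f a ∈ F) ≤ (3 / 4) ^ m * 2 ^ E.card

/-- the map `ψ` sends the edges of `F` from `K` to `Q` without `B` to edges of `F` -/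
def Ev {V : Type} (Q K B : Finset V) (ψ : V → V) (F : Finset (Sym2 V)) : Prop :=
  ∀ x ∈ K, ∀ z ∈ Q, z ∉ B → s(x, z) ∈ F → s(ψ x, ψ z) ∈ F

/-- CERT: the probability of `Ev` -/
def CERT : Prop := ∀ (V : Type) [Fintype V] [DecidableEq V] (G : SimpleGraph V)
  (Q K B : Finset V) (ψ : V → V) (d m : ℕ), K ⊆ Q → (∀ x ∈ K, x ∉ B) → Set.InjOn ψ K →
  (∀ x ∈ K, ψ x ≠ x) → (∀ x, x ∉ K → ψ x = x) → B.card ≤ 2 →
  (∀ x ∈ K, d ≤ (nb G Q x).card) → 18 * m ≤ K.card * (d - 3) →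
  cnt (ed G) (Ev Q K B ψ) ≤ (3 / 4) ^ m * 2 ^ (ed G).card

/-- CORE2: near-automorphisms of a random spanning subgraph fix all vertices of a core `Y` -/
def CORE2 : Prop := ∀ (V : Type) [Fintype V] [DecidableEq V] (G : SimpleGraph V)
  (Y : Finset V) (k : ℕ), 2 ≤ Fintype.card V → (∀ y ∈ Y, k ≤ (nb G Y y).card) →
  300 * (Nat.log 2 (Fintype.card V) + 1) + 3 ≤ k →
  cnt (ed G) (fun F => ∃ y ∈ Y, ¬ Rn (gr F) y) ≤ 1 / (Fintype.card V : ℝ) * 2 ^ (ed G).card

/-- ISO: some vertex of `L` has no neighbour in `S` -/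
def ISO : Prop := ∀ (V : Type) [Fintype V] [DecidableEq V] (G : SimpleGraph V)
  (S L : Finset V) (b m : ℕ), L ⊆ S → (∀ x ∈ L, (nb G S x).card ≤ b) → m * (b + 1) ≤ L.card →
  cnt (ed G) (fun F => ∀ z ∈ L, ∃ y ∈ S, s(z, y) ∈ F) ≤
    (1 - (1 / 2) ^ b) ^ m * 2 ^ (ed G).card

/-- DEG: in a random spanning subgraph no vertex of large degree becomes a vertex of small
degree -/
def DEG : Prop := ∀ (V : Type) [Fintype V] [DecidableEq V] (G : SimpleGraph V) (D1 D2 : ℕ),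
  2 ≤ Fintype.card V → (D1 + 4) * (Nat.log 2 (Fintype.card V) + 1) ≤ D2 →
  cnt (ed G) (fun F => ∃ v : V, D2 < (nb G univ v).card ∧ (nb (gr F) univ v).card ≤ D1 + 2) ≤
    1 / (Fintype.card V : ℝ) * 2 ^ (ed G).card

/-- BINOM: central binomial coefficients -/
def BINOM : Prop := ∀ s j : ℕ, (s.choose j : ℝ) ≤ 2 ^ s / Real.sqrt (s + 1)

/-! ### Large components of the moved set -/

/-- a walk in `A` with `m` steps -/
def IsW {V : Type} (G : SimpleGraph V) (A : Finset V) (m : ℕ) (w : ℕ → V) : Prop :=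
  (∀ i ≤ m, w i ∈ A) ∧ ∀ i < m, G.Adj (w i) (w (i + 1))

/-- WALK: a connected set `K` is covered by a walk with `2 (|K| - 1)` steps -/
def WALK : Prop := ∀ (V : Type) [Fintype V] [DecidableEq V] (G : SimpleGraph V) (K : Finset V),
  (G.induce (K : Set V)).Connected →
  ∃ w : ℕ → V, IsW G K (2 * (K.card - 1)) w ∧ ∀ x ∈ K, ∃ i ≤ 2 * (K.card - 1), w i = x

open Classical in
/-- WCNT: the number of walks -/
def WCNT : Prop := ∀ (V : Type) [Fintype V] [DecidableEq V] (G : SimpleGraph V) (A : Finset V)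
  (m D : ℕ), (∀ x ∈ A, (nb G A x).card ≤ D) →
  (univ.filter (fun w : Fin (m + 1) → V => (∀ i, w i ∈ A) ∧
    ∀ i : Fin m, G.Adj (w i.castSucc) (w i.succ))).card ≤ Fintype.card V * D ^ m

/-- `K` is a large connected piece of the set moved by a near-automorphism of `gr F`: a component
of the graph induced by the moved vertices of `Q` -/
def Piece {V : Type} (Q Lo : Finset V) (K : Finset V) (φ : NAut V) (F : Finset (Sym2 V)) : Prop :=
  IsNA (gr F) φ ∧ K ⊆ Q ∧ ((gr F).induce (K : Set V)).Connected ∧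
    (∀ x ∈ K, x ≠ φ.2.1 ∧ x ≠ φ.2.2 ∧ φ.1 x ≠ x ∧ φ.1 x ∈ Lo) ∧
    ∀ x ∈ K, ∀ z ∈ Q, z ∉ K → z ≠ φ.2.1 → z ≠ φ.2.2 → (gr F).Adj x z → φ.1 z = z

/-- BIG: large pieces do not exist -/
def BIG : Prop := ∀ (V : Type) [Fintype V] [DecidableEq V] (G : SimpleGraph V)
  (Q Lo : Finset V) (d g D1 D2 K0 : ℕ) (θ : ℝ), 2 ≤ Fintype.card V →
  (∀ x ∈ Q, d ≤ (nb G Q x).card) → (∀ x ∈ Q, (nb G Q x).card ≤ D1) →
  (∀ x ∈ Lo, (nb G Lo x).card ≤ D2) → 1 ≤ D1 → 1 ≤ D2 → 18 * g + 3 ≤ d → 1 ≤ K0 →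
  ((D1 : ℝ) * D2) ^ 2 * (3 / 4) ^ g ≤ θ → θ ≤ 1 / 2 →
  2 * (Fintype.card V : ℝ) ^ 5 * θ ^ K0 ≤ 1 →
  cnt (ed G) (fun F => ∃ (φ : NAut V) (K : Finset V), K0 ≤ K.card ∧ Piece Q Lo K φ F) ≤
    1 / (Fintype.card V : ℝ) * 2 ^ (ed G).card

/-- `x` belongs to a small piece -/
def Small {V : Type} (Q : Finset V) (K0 : ℕ) (x : V) (F : Finset (Sym2 V)) : Prop :=
  ∃ (φ : NAut V) (K : Finset V), IsNA (gr F) φ ∧ x ≠ φ.2.1 ∧ x ≠ φ.2.2 ∧ φ.1 x ≠ x ∧ x ∈ K ∧
    K.card ≤ K0 ∧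
    ∀ z ∈ Q, z ∉ K → z ≠ φ.2.1 → z ≠ φ.2.2 → (gr F).Adj x z → φ.1 z = z

/-- SMALL: the probability that `x` belongs to a small piece -/
def SMALL : Prop := ∀ (V : Type) [Fintype V] [DecidableEq V] (G : SimpleGraph V)
  (Q : Finset V) (d D1 K0 : ℕ) (x : V), x ∈ Q → d ≤ (nb G Q x).card →
  (∀ z ∈ Q, (nb G univ z).card ≤ D1) → 1 ≤ D1 → K0 + 3 ≤ d →
  cnt (ed G) (Small Q K0 x) ≤
    2 * D1 * ((d : ℝ) + 1) ^ (K0 + 3) * (3 / 4) ^ (d - K0 - 3) * 2 ^ (ed G).card

/-- LOCAL: every vertex of `Q` moved by a near-automorphism belongs to a small or to a large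
piece -/
def LOCAL : Prop := ∀ (V : Type) [Fintype V] [DecidableEq V] (G : SimpleGraph V)
  (Q Lo : Finset V) (D1 K0 : ℕ) (F : Finset (Sym2 V)) (x : V), F ⊆ ed G → x ∈ Q →
  (∀ z ∈ Q, (nb G univ z).card ≤ D1) →
  (∀ v : V, v ∉ Lo → D1 + 2 < (nb (gr F) univ v).card) → ¬ Rn (gr F) x →
  Small Q K0 x F ∨ ∃ (φ : NAut V) (K : Finset V), K0 + 1 ≤ K.card ∧ Piece Q Lo K φ F

/-! ### Vertices of large degree -/

/-- the number of the neighbours of `z` outside `W` in the graph with edge set `F` -/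
noncomputable def dg {V : Type} [Fintype V] [DecidableEq V] (F : Finset (Sym2 V)) (W : Finset V)
    (z : V) : ℕ := (nb (gr F) (univ \ W) z).card

open Classical in
/-- the number of the neighbours `z ∉ U` of `v` with exactly `j` neighbours outside `U` -/
noncomputable def cj {V : Type} [Fintype V] [DecidableEq V] (F : Finset (Sym2 V)) (U : Finset V)
    (v : V) (j : ℕ) : ℕ :=
  (univ.filter (fun z => z ∉ U ∧ (gr F).Adj v z ∧ dg F U z = j)).card

/-- the neighbours of `v` outside `U` and those of `v'` outside `U'` have the same degrees -/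
def Match {V : Type} [Fintype V] [DecidableEq V] (v v' : V) (U U' : Finset V)
    (F : Finset (Sym2 V)) : Prop := ∀ j : ℕ, cj F U v j = cj F U' v' j

/-- NAM: near-automorphisms give matches -/
def NAM : Prop := ∀ (V : Type) [Fintype V] [DecidableEq V] (F : Finset (Sym2 V)) (φ : NAut V)
  (v : V), IsNA (gr F) φ → v ≠ φ.2.1 → v ≠ φ.2.2 →
  Match v (φ.1 v) {φ.2.1, φ.2.2} {φ.1 φ.2.1, φ.1 φ.2.2} F

/-- MC: the conditional probability of a match, given all edges except those from `v` to `N` -/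
def MC : Prop := ∀ (V : Type) [Fintype V] [DecidableEq V] (v v' : V) (U U' N : Finset V)
  (F0 : Finset (Sym2 V)) (q : ℕ) (ρ : ℝ), v ≠ v' → U.card ≤ 2 → U'.card ≤ 2 → v ∉ U → v' ∉ U' →
  v ∉ N → v' ∉ N → Disjoint N U → Disjoint N U' →
  (∀ z ∈ N, s(v, z) ∉ F0) →
  (∀ t : ℕ, ∏ j ∈ (range (Fintype.card V + 1)).filter (fun j => j % 8 = q ∧ j ≠ t),
    (1 / Real.sqrt (((N.filter (fun z => dg F0 (insert v U) z = j)).card : ℝ) + 1)) ≤ ρ) →
  cnt (N.image (fun z => s(v, z))) (fun A => Match v v' U U' (F0 ∪ A)) ≤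
    ((Fintype.card V : ℝ) + 2) * ρ * 2 ^ (N.image (fun z => s(v, z))).card

/-- SPREAD: the degrees of the vertices of an independent set `N` are spread out -/
def SPREAD : Prop := ∀ (V : Type) [Fintype V] [DecidableEq V] (G : SimpleGraph V)
  (N W : Finset V) (d J h : ℕ), 2 ≤ Fintype.card V → Indep G N → Disjoint N W →
  (∀ z ∈ N, d ≤ (nb G (univ \ W) z).card) → (16 * J) ^ 2 ≤ d + 1 →
  (Fintype.card V) ^ 200 ≤ (h + 1) ^ (J + 1) →
  400 * (Nat.log 2 (Fintype.card V) + 1) * h ≤ N.card →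
  cnt (ed G) (fun F => ∏ j ∈ range (Fintype.card V + 1),
      ((N.filter (fun z => dg F W z = j)).card + 1) < (Fintype.card V) ^ 200) ≤
    ((Fintype.card V : ℝ) + 2) ^ J * (1 / 2) ^ N.card * 2 ^ (ed G).card

/-- HP: the probability of a match -/
def HP : Prop := ∀ (V : Type) [Fintype V] [DecidableEq V] (G : SimpleGraph V) (v v' : V)
  (U U' N : Finset V), 2 ≤ Fintype.card V → v ≠ v' → U.card ≤ 2 → U'.card ≤ 2 → v ∉ U → v' ∉ U' →
  N ⊆ nb G univ v → v' ∉ N → Disjoint N U → Disjoint N U' →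
  cnt (ed G) (Match v v' U U') ≤
    cnt (ed G) (fun F => ∏ j ∈ range (Fintype.card V + 1),
      ((N.filter (fun z => dg F (insert v U) z = j)).card + 1) < (Fintype.card V) ^ 200) +
    1 / (Fintype.card V : ℝ) ^ 10 * 2 ^ (ed G).card

/-- HIGH: a vertex with a large independent set `N` of neighbours of degree at least `d + 3` is
fixed by all near-automorphisms of a random spanning subgraph -/
def HIGH : Prop := ∀ (V : Type) [Fintype V] [DecidableEq V] (G : SimpleGraph V) (v : V)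
  (N : Finset V) (d J h : ℕ), 2 ≤ Fintype.card V → N ⊆ nb G univ v → Indep G N →
  (∀ z ∈ N, d + 3 ≤ (nb G univ z).card) → (16 * J) ^ 2 ≤ d + 1 →
  (Fintype.card V) ^ 200 ≤ (h + 1) ^ (J + 1) →
  400 * (Nat.log 2 (Fintype.card V) + 1) * h + 5 ≤ N.card →
  32 * (Fintype.card V + 2) ^ J * (Fintype.card V) ^ 10 ≤ 2 ^ N.card →
  cnt (ed G) (fun F => ¬ Rn (gr F) v) ≤ 1 / (Fintype.card V : ℝ) ^ 4 * 2 ^ (ed G).card

end Pool.Agent.Y395.RS
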